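import Pool.Agent.H4.CG.Sub

set_option autoImplicit false

/-!
# A closure class of groups of automorphisms of free groups with the congruence subgroup property

Definitions (`Pool/Agent/H4/CG/*.lean`, and the library files in `Pool/Agent/H4/L`).

* `FullAut A`, for a group `A` of automorphisms of `F`: every subgroup of finite index of `A` contains all the
  elements of `A` which act trivially on `F / K`, for some characteristic subgroup `K` of finite index of `F`.
* `FullOut B`: every subgroup of finite index of `B` which contains the inner automorphisms lying in `B` contains all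
  the elements of `B` which act as an inner automorphism on `F / K`, for some such `K`. This is a property of the
  image of `B` in `Out(F)`: the congruence topology of `Out(F)` induces the full profinite topology on it. In
  particular, for every finite quotient `π` of `Out(F)` there is `K` such that `ker π` contains all elements of the
  image of `B` which are in the kernel of `Out(F) → Out(F / K)`: the conclusion of Q1 holds on this group.
* `Inn F`: the inner automorphisms; `toOut F : Aut(F) → Out(F)`; `VAb B`: the group `B` has a finitely generated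
  abelian subgroup of finite index.
* `trans e A`: the group which corresponds to `A` under the isomorphism `e` of `F` and `F'`.
* `loops J A`: all automorphisms of the free group on `I ⊕ J` which restrict to an element of `A` on the free factor
  on `I` and map each letter `x j`, `j` in `J`, to `u * (x (σ j)) ^ (± 1) * v` with `u`, `v` in this factor and a
  permutation `σ` of `J`.
* `prodGrp n A`: all automorphisms of the free product `FP n` of free groups of ranks `n i` which restrict to an
  element of `A i` on each factor.
* `kill x0`: the homomorphism of the free group on `X` onto the free group on the other letters which kills `x0`.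
* `restr A U`: the restrictions to `U` of the elements of `A` which map `U` onto itself.

Examples of members: the full preimage `A` in `Aut(F_n)` of every finitely generated virtually abelian subgroup of
`Out(F_n)`, for example `F_n ⋊ ℤ` for any outer automorphism of infinite order; the group of the automorphisms of
`F_(n+1)` which restrict to an element of such an `A` on `F_n` and fix the last letter, or map it to `u t v` or to
`u t u⁻¹` with `u`, `v` in `F_n`; pure braid groups modulo the centre (step `push`); free products and covers of all
these, and so on.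

The proof. The bases: our theorem on virtually abelian subgroups of `Out(F_n)` (`Pool/Agent/H4/CS`, class functions of
bounded degree and the theorem of Chevalley on congruences between units), and the theorem of Asada for rank two
(library). The passage from `FullOut` to `FullAut` and the step `cover` use that for all subgroups `U`, `W` of finite
index of a nonabelian free group there is `K` such that all elements which centralize `U` modulo `K` are in `W`
(`Cent`; an action of the free group on `P × ℤ/m` in which one letter is marked, `fact`). The steps `loops` and `prod`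
are in the library.
-/

namespace Pool.Agent.Results.MP_181555_al.FullTopologyClass

open Pool.Agent.Q23.CS (FullAut FullOut loops)
open Pool.Agent.Q171.AS (FP)
open Pool.Agent.H4.CG
open Pool.Agent.H4.CS (Inn)

/-- `A` contains the inner automorphisms. -/
def HasInn {F : Type} [Group F] (A : Subgroup (MulAut F)) : Prop := ∀ g, MulAut.conj g ∈ A

/-- `A` induces the group `E` on the image `F'` of `p`. -/
def Induces {F F' : Type} [Group F] [Group F'] (p : F →* F') (A : Subgroup (MulAut F))
    (E : Subgroup (MulAut F')) : Prop :=
  (∀ α ∈ A, ∃ ε ∈ E, ∀ w, p (α w) = ε (p w)) ∧ (∀ ε ∈ E, ∃ α ∈ A, ∀ w, p (α w) = ε (p w))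

/-- The elements of `A` which induce the identity on the image of `p` are in `N`. -/
def KerIn {F F' : Type} [Group F] [Group F'] (p : F →* F') (A N : Subgroup (MulAut F)) : Prop :=
  ∀ α ∈ A, (∀ w, p (α w) = p w) → α ∈ N

/-- `A` induces the group `E` on the invariant subgroup `U`. -/
def InducesSub {F : Type} [Group F] (U : Subgroup F) (A : Subgroup (MulAut F))
    (E : Subgroup (MulAut U)) : Prop :=
  (∀ α ∈ A, ∃ ε ∈ E, ∀ u : U, (ε u : F) = α u) ∧ (∀ ε ∈ E, ∃ α ∈ A, ∀ u : U, (ε u : F) = α u)

/-- The elements of `A` which induce the identity on `U` are in `N`. -/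
def FixIn {F : Type} [Group F] (U : Subgroup F) (A N : Subgroup (MulAut F)) : Prop :=
  ∀ α ∈ A, (∀ u : U, α u = u) → α ∈ N

/-- The profinite topology of `F` induces that of `U`. -/
def TopInduced {F : Type} [Group F] (U : Subgroup F) : Prop :=
  ∀ V : Subgroup U, V.FiniteIndex → ∃ W : Subgroup F, W.FiniteIndex ∧ ∀ u : U, (u : F) ∈ W → u ∈ V

/-- `C` is a retract of a subgroup of finite index of `A`. -/
def VirtualRetract {G : Type} [Group G] (A C : Subgroup G) : Prop :=
  ∃ A₁ : Subgroup G, A₁ ≤ A ∧ A₁.relIndex A ≠ 0 ∧ C ≤ A₁ ∧
    ∃ r : A₁ →* G, (∀ a, r a ∈ C) ∧ ∀ a : A₁, (a : G) ∈ C → r a = a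

/-- `A` is a congruence subgroup of `B`: for some characteristic subgroup `K` of finite index of `F`, it contains the
elements of `B` which act trivially on `F / K`. -/
def CongIn {F : Type} [Group F] (A B : Subgroup (MulAut F)) : Prop :=
  A ≤ B ∧ ∃ K : Subgroup F, K.Characteristic ∧ K.FiniteIndex ∧
    ∀ β ∈ B, (∀ w : F, β w * w⁻¹ ∈ K) → β ∈ A

/-- The least class of pairs `(F, A)`, `F` a free group of finite rank and `A` a group of automorphisms of `F`, with
the following properties. -/
inductive Member : (F : Type) → [Group F] → Subgroup (MulAut F) → Prop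
  /-- `A` is virtually a finitely generated abelian group. -/
  | abelian (n : ℕ) (hn : 1 ≤ n) (A : Subgroup (MulAut (FreeGroup (Fin n)))) (h : VAb A) :
      Member (FreeGroup (Fin n)) A
  /-- `A` is the full preimage of a virtually abelian, finitely generated group of outer
  automorphisms. -/
  | outer (n : ℕ) (hn : 2 ≤ n) (A : Subgroup (MulAut (FreeGroup (Fin n))))
      (hin : HasInn A) (h : VAb (A.map (toOut _))) : Member (FreeGroup (Fin n)) A
  /-- all automorphisms, for the ranks one and two -/
  | low (n : ℕ) (hn : n = 1 ∨ n = 2) : Member (FreeGroup (Fin n)) ⊤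
  /-- isomorphisms -/
  | iso (F F' : Type) [Group F] [Group F'] (e : F ≃* F') (A : Subgroup (MulAut F))
      (h : Member F A) : Member F' (trans e A)
  /-- free splittings with one vertex, and the preimage of their image in the outer automorphism group -/
  | loops (I J : Type) [Finite I] [Finite J] [Nonempty I] [Nonempty J]
      (A : Subgroup (MulAut (FreeGroup I))) (h : Member (FreeGroup I) A) :
      Member (FreeGroup (I ⊕ J)) (loops J A)
  | loopsInn (I J : Type) [Finite I] [Finite J] [Nonempty I] [Nonempty J]
      (A : Subgroup (MulAut (FreeGroup I))) (hin : HasInn A) (h : Member (FreeGroup I) A) :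
      Member (FreeGroup (I ⊕ J)) (Pool.Agent.Q23.CS.loops J A ⊔ Inn (FreeGroup (I ⊕ J)))
  /-- free products -/
  | prod (k : ℕ) (n : Fin k → ℕ) (hk : 2 ≤ k) (hn : ∀ i, 1 ≤ n i)
      (A : ∀ i, Subgroup (MulAut (FreeGroup (Fin (n i)))))
      (h : ∀ i, Member (FreeGroup (Fin (n i))) (A i)) : Member (FP n) (prodGrp n A)
  | prodInn (k : ℕ) (n : Fin k → ℕ) (hk : 2 ≤ k) (hn : ∀ i, 1 ≤ n i)
      (A : ∀ i, Subgroup (MulAut (FreeGroup (Fin (n i)))))
      (h : ∀ i, Member (FreeGroup (Fin (n i))) (A i)) : Member (FP n) (prodGrp n A ⊔ Inn (FP n))
  /-- Birman's sequence: the elements of `B` fix the letter `x0`, `E` is the group of the automorphisms induced on the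
  free group on the other letters, and the elements which induce the identity are inner. -/
  | push (X : Type) [Finite X] (x0 : X) (B : Subgroup (MulAut (FreeGroup X)))
      (E : Subgroup (MulAut (FreeGroup {x : X // x ≠ x0}))) (hE : Member _ E)
      (h1 : ∀ β ∈ B, β (FreeGroup.of x0) = FreeGroup.of x0)
      (h2 : Induces (kill x0) B E) (h3 : KerIn (kill x0) B (Inn (FreeGroup X))) :
      Member (FreeGroup X) (B ⊔ Inn (FreeGroup X))
  /-- restriction to subgroups of finite index of the free group -/
  | cover (F : Type) [Group F] (A : Subgroup (MulAut F)) (U : Subgroup F) (hU : U.FiniteIndex)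
      (hF : ∃ a b : F, a * b ≠ b * a) (h : Member F A) : Member U (restr A U)
  /-- extensions: `A` induces the group `E` on the quotient `F'` of `F`, and `N` contains the kernel. -/
  | extension (F F' : Type) [Group F] [Group F'] (p : F →* F') (hp : Function.Surjective p)
      (A N : Subgroup (MulAut F)) (E : Subgroup (MulAut F')) (hN : Member F N) (hE : Member F' E)
      (h0 : N ≤ A) (h1 : Induces p A E) (h2 : KerIn p A N) : Member F A
  /-- extensions: `A` induces the group `E` on the invariant subgroup `U`, and `N` contains the kernel; the profinite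
  topology of `F` induces that of `U` (so for all finitely generated `U`, by the theorem of M. Hall). -/
  | invariant (F : Type) [Group F] (U : Subgroup F) (hU : TopInduced U)
      (A N : Subgroup (MulAut F)) (E : Subgroup (MulAut U)) (hN : Member F N) (hE : Member U E)
      (h0 : N ≤ A) (h1 : InducesSub U A E) (h2 : FixIn U A N) : Member F A
  /-- virtual retracts `C` of `A` -/
  | retract (F : Type) [Group F] (A C : Subgroup (MulAut F)) (hA : Member F A)
      (h : VirtualRetract A C) : Member F C
  /-- groups in which `A` is a congruence subgroup -/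
  | above (F : Type) [Group F] (A B : Subgroup (MulAut F)) (hA : Member F A) (h : CongIn A B) :
      Member F B

/-- the properties proved by induction -/
theorem main {F : Type} [Group F] {A : Subgroup (MulAut F)} (h : Member F A) :
    Group.FG F ∧ ((∃ a b : F, a * b ≠ b * a) → Cent F) ∧ FullAut A := by
  induction h with
  | abelian n hn A h => exact ⟨inferInstance, cent_free _, base_aut hn h⟩
  | outer n hn A hin h => exact ⟨inferInstance, cent_free _, base_ext hn hin h⟩
  | low n hn => exact ⟨inferInstance, cent_free _, Pool.Agent.Q23.CS.full_two hn⟩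
  | iso F F' e A h ih =>
    obtain ⟨h1, h2, h3⟩ := ih
    refine ⟨Group.fg_of_surjective (f := e.toMonoidHom) e.surjective, ?_, Pool.Agent.H4.CG.iso e h3⟩
    rintro ⟨a, b, hab⟩
    refine cent_iso e (h2 ⟨e.symm a, e.symm b, fun h => hab ?_⟩)
    rw [← map_mul, ← map_mul] at h
    exact e.symm.injective h
  | loops I J A h ih =>
    exact ⟨inferInstance, cent_free _, (Pool.Agent.Q23.CS.loops_main A).1.1 ih.2.2⟩
  | loopsInn I J A hin h ih =>
    exact ⟨inferInstance, cent_free _,
      aut_sup (((Pool.Agent.Q23.CS.loops_main A).2 hin).1 ih.2.2)⟩
  | prod k n hk hn A h ih =>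
    exact ⟨inferInstance, cent_free _, prod_aut hk hn fun i => (ih i).2.2⟩
  | prodInn k n hk hn A h ih =>
    exact ⟨inferInstance, cent_free _, aut_sup (prod_out hk hn fun i => (ih i).2.2)⟩
  | push X x0 B E hE h1 h2 h3 ih =>
    refine ⟨inferInstance, cent_free _, aut_sup (Pool.Agent.H4.CG.push x0 ih.2.2 h1 h2.1 h2.2 ?_)⟩
    intro β hβ hk
    obtain ⟨g, hg⟩ := h3 β hβ hk
    exact ⟨g, hg.symm⟩
  | cover F A U hU hF h ih =>
    obtain ⟨h1, h2, h3⟩ := ih
    have hUfg : Group.FG U := Subgroup.fg_of_index_ne_zero U
    exact ⟨hUfg, fun _ => cent_sub (h2 hF) U, Pool.Agent.H4.CG.cover (h2 hF) h3 U⟩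
  | extension F F' p hp A N E hN hE h0 h1 h2 ih ih' =>
    have := ih.1
    exact ⟨ih.1, ih.2.1, Pool.Agent.H4.CG.extension p hp ih.2.2 ih'.2.2 h0 h1.1 h1.2 h2⟩
  | invariant F U hU A N E hN hE h0 h1 h2 ih ih' =>
    have := ih.1
    exact ⟨ih.1, ih.2.1, Pool.Agent.H4.CG.invariant hU ih.2.2 ih'.2.2 h0 h1.1 h1.2 h2⟩
  | retract F A C hA h ih =>
    obtain ⟨A₁, h1, h2, h3, r, hr, hr'⟩ := h
    exact ⟨ih.1, ih.2.1, Pool.Agent.H4.CG.retract ih.2.2 h1 h2 h3 r hr hr'⟩
  | above F A B hA h ih =>
    obtain ⟨h1, K, hK, hKf, h2⟩ := h
    exact ⟨ih.1, ih.2.1, Pool.Agent.H4.CG.above ih.2.2 h1 hK hKf h2⟩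

/-- **The congruence subgroup property on the members of the class.** (1) `FullAut A` for all members `(F, A)`.
(2) `FullOut B` for all groups `B` of automorphisms of `F` such that `(F, B ⊔ Inn F)` is a member. -/
theorem result :
    (∀ (F : Type) [Group F] (A : Subgroup (MulAut F)), Member F A → FullAut A) ∧
    (∀ (F : Type) [Group F] (B : Subgroup (MulAut F)), Member F (B ⊔ Inn F) → FullOut B) := by
  refine ⟨fun F _ A h => (main h).2.2, fun F _ B h => ?_⟩
  exact out_of_sup (out_of_aut
    (fun g => (le_sup_right : Inn F ≤ B ⊔ Inn F) ⟨g, rfl⟩) (main h).2.2)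

end Pool.Agent.Results.MP_181555_al.FullTopologyClass
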